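import Mathlib

/-!
# An injective module in `⊥𝓟` of infinite projective dimension

Let `I` be a set of cardinality `ℵ_ω`, let `R` be the free Boolean ring on generators `x_i`,
`i ∈ I`, let `𝔪 = (x_i)` and `A = R/𝔪`. Then `A` is injective and not projective. The module `A`
has the projective resolution `P_n = ⨁_{|S| = n} x_S R` (simplicial boundary), and for projective
`N` the complex `Hom(P_n, N)` is exact. This is proved by induction on `n`: if `J ⊆ I` has at least
`ℵ_n` elements then every `n`-cocycle on `J` is a coboundary (`claim`). On a subset `K` with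
`#K < #J` a cocycle `f` on `J` is the coboundary of `T ↦ f(T ∪ {j})|_{x_j = 1}` for a `j ∈ J`
which does not occur in the values of `f` on `K` (`small`), and these primitives on initial segments
of `J` are glued with Zorn's lemma.
-/

open Cardinal CategoryTheory

namespace Pool.Agent.Results.MP_3e7e0d_al.BooleanExample

section coh

variable {I R P : Type} [CommRing R] [AddCommGroup P] [Module R P]

/-- `x_T` -/
noncomputable def xx (x : I → R) (T : Finset I) : R := ∏ i ∈ T, x i

open Classical in
/-- the differential -/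
noncomputable def dd (x : I → R) (f : Finset I → P) (S : Finset I) : P :=
  ∑ s ∈ S, x s • f (S.erase s)

/-- The hypotheses on the operators `ρ j`. -/
structure Shift (x : I → R) (ρ : I → P →+ P) : Prop where
  idem : ∀ i, x i * x i = x i
  two : ∀ p : P, p + p = 0
  ne : ∀ i j p, i ≠ j → ρ j (x i • p) = x i • ρ j p
  eq : ∀ j p, ρ j (x j • p) = ρ j p
  fin : ∀ p, {j | ρ j p ≠ p}.Finite

variable {x : I → R} {ρ : I → P →+ P}

/-- `n`-cochains on `J` -/
def Coch (P : Type) [AddCommGroup P] [Module R P] (x : I → R) (J : Set I) (n : ℕ)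
    (f : Finset I → P) : Prop :=
  ∀ T : Finset I, (T : Set I) ⊆ J → T.card = n → xx x T • f T = f T

theorem xx_idem (h : ∀ i, x i * x i = x i) (T : Finset I) : xx x T * xx x T = xx x T := by
  unfold xx
  rw [← Finset.prod_mul_distrib]
  exact Finset.prod_congr rfl fun i _ => h i

open Classical in
theorem xx_erase (T : Finset I) {s : I} (hs : s ∈ T) : x s * xx x (T.erase s) = xx x T :=
  Finset.mul_prod_erase T x hs

theorem dd_add (f g : Finset I → P) (S : Finset I) : dd x (f + g) S = dd x f S + dd x g S := by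
  classical
  unfold dd
  simp only [Pi.add_apply, smul_add, Finset.sum_add_distrib]

theorem dd_congr {f g : Finset I → P} {S : Finset I}
    (h : ∀ T : Finset I, T ⊆ S → T.card + 1 = S.card → f T = g T) : dd x f S = dd x g S := by
  classical
  unfold dd
  apply Finset.sum_congr rfl
  intro s hs
  rw [h (S.erase s) (Finset.erase_subset s S)]
  rw [Finset.card_erase_of_mem hs]
  have := Finset.card_pos.2 ⟨s, hs⟩
  omega

theorem dd_dd (two : ∀ p : P, p + p = 0) (f : Finset I → P) (S : Finset I) :
    dd x (dd x f) S = 0 := by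
  classical
  have h1 : dd x (dd x f) S =
      ∑ p ∈ S.offDiag, x p.1 • x p.2 • f ((S.erase p.1).erase p.2) := by
    unfold dd
    rw [Finset.sum_congr rfl fun s _ => Finset.smul_sum]
    rw [Finset.sum_sigma']
    apply Finset.sum_bij (fun p _ => (p.1, p.2))
    · intro p hp
      rw [Finset.mem_sigma, Finset.mem_erase] at hp
      rw [Finset.mem_offDiag]
      exact ⟨hp.1, hp.2.2, fun h => hp.2.1 h.symm⟩
    · intro p _ q _ h
      rw [Prod.mk.injEq] at h
      exact Sigma.ext h.1 (heq_of_eq h.2)
    · intro p hp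
      rw [Finset.mem_offDiag] at hp
      exact ⟨⟨p.1, p.2⟩, Finset.mem_sigma.2 ⟨hp.1, Finset.mem_erase.2
        ⟨fun h => hp.2.2 h.symm, hp.2.1⟩⟩, rfl⟩
    · intro p _
      rfl
  rw [h1]
  apply Finset.sum_involution (fun p _ => (p.2, p.1))
  · intro p hp
    simp only
    rw [smul_comm (x p.2) (x p.1), Finset.erase_right_comm]
    exact two _
  · intro p hp _ h
    rw [Finset.mem_offDiag] at hp
    exact hp.2.2 (congrArg Prod.snd h)
  · intro p hp
    rw [Finset.mem_offDiag] at hp ⊢
    exact ⟨hp.2.1, hp.1, fun h => hp.2.2 h.symm⟩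
  · intro p hp
    rfl

/-- existence of primitives on small sets -/
theorem small (hρ : Shift x ρ) {n : ℕ} {J K : Set I} (hJ : ℵ₀ < #J) (hK : K ⊆ J) (hKJ : #K < #J)
    (f : Finset I → P) (hf : Coch P x J (n + 1) f)
    (hd : ∀ S : Finset I, (S : Set I) ⊆ J → S.card = n + 2 → dd x f S = 0) :
    ∃ g : Finset I → P, Coch P x K n g ∧
      ∀ S : Finset I, (S : Set I) ⊆ K → S.card = n + 1 → f S = dd x g S := by
  classical
  -- the bad set
  set D : Set I := K ∪ ⋃ S : Finset K, {j | ρ j (f (S.map (Function.Embedding.subtype _))) ≠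
    f (S.map (Function.Embedding.subtype _))} with hD
  have hDJ : #D < #J := by
    refine lt_of_le_of_lt (mk_union_le _ _) ?_
    refine add_lt_of_lt hJ.le hKJ ?_
    refine lt_of_le_of_lt mk_iUnion_le_sum_mk ?_
    refine lt_of_le_of_lt (sum_le_mk_mul_iSup _) ?_
    refine mul_lt_of_lt hJ.le ?_ ?_
    · by_cases hfin : Finite K
      · exact lt_of_lt_of_le (lt_aleph0_of_finite _) hJ.le
      · have : Infinite K := not_finite_iff_infinite.1 hfin
        rw [mk_finset_of_infinite]
        exact hKJ
    · refine lt_of_le_of_lt ?_ hJ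
      apply ciSup_le'
      intro S
      exact (lt_aleph0_iff_set_finite.2 (hρ.fin _)).le
  obtain ⟨j, hjJ, hjD⟩ : ∃ j, j ∈ J ∧ j ∉ D := by
    by_contra hcon
    push Not at hcon
    exact absurd (mk_le_mk_of_subset hcon) (not_le.2 hDJ)
  have hjK : j ∉ K := fun h => hjD (Or.inl h)
  have hjf : ∀ S : Finset I, (S : Set I) ⊆ K → ρ j (f S) = f S := by
    intro S hS
    by_contra hne
    apply hjD
    right
    rw [Set.mem_iUnion]
    refine ⟨S.subtype (· ∈ K), ?_⟩
    rw [Finset.subtype_map_of_mem (fun i hi => hS hi)]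
    exact hne
  have hins : ∀ T : Finset I, (T : Set I) ⊆ K → ((insert j T : Finset I) : Set I) ⊆ J := by
    intro T hT i hi
    rw [Finset.coe_insert, Set.mem_insert_iff] at hi
    rcases hi with rfl | hi
    · exact hjJ
    · exact hK (hT hi)
  have hnot : ∀ T : Finset I, (T : Set I) ⊆ K → j ∉ T := fun T hT h => hjK (hT h)
  have hxx : ∀ (T : Finset I) (p : P), (T : Set I) ⊆ K → ρ j (xx x T • p) = xx x T • ρ j p := by
    intro T
    induction T using Finset.induction_on with
    | empty => intro p _; simp [xx]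
    | insert a T ha ih =>
      intro p hT
      have haj : a ≠ j := by
        rintro rfl
        exact hnot _ hT (Finset.mem_insert_self _ _)
      unfold xx at ih ⊢
      rw [Finset.prod_insert ha, mul_smul, mul_smul, hρ.ne _ _ _ haj, ih]
      intro i hi
      exact hT (Finset.mem_coe.2 (Finset.mem_insert_of_mem (Finset.mem_coe.1 hi)))
  refine ⟨fun T => ρ j (f (insert j T)), ?_, ?_⟩
  · intro T hT hcard
    have h1 := hf (insert j T) (hins T hT) (by rw [Finset.card_insert_of_notMem (hnot T hT), hcard])
    change xx x T • ρ j (f (insert j T)) = ρ j (f (insert j T))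
    rw [← hxx T _ hT]
    conv_rhs => rw [← h1]
    unfold xx
    rw [Finset.prod_insert (hnot T hT), mul_smul, hρ.eq]
  · intro S hS hcard
    have h1 := hd (insert j S) (hins S hS) (by rw [Finset.card_insert_of_notMem (hnot S hS), hcard])
    unfold dd at h1
    rw [Finset.sum_insert (hnot S hS), Finset.erase_insert (hnot S hS)] at h1
    have h2 := congrArg (ρ j) h1
    rw [map_add, hρ.eq, hjf S hS, map_zero, map_sum] at h2
    have h3 : ∑ s ∈ S, ρ j (x s • f ((insert j S).erase s)) =
        ∑ s ∈ S, x s • ρ j (f (insert j (S.erase s))) := by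
      apply Finset.sum_congr rfl
      intro s hs
      have hsj : s ≠ j := by
        rintro rfl
        exact hnot S hS hs
      rw [hρ.ne _ _ _ hsj, Finset.erase_insert_of_ne (fun h => hsj h.symm)]
    rw [h3] at h2
    unfold dd
    have h4 := hρ.two (∑ s ∈ S, x s • ρ j (f (insert j (S.erase s))))
    exact add_right_cancel (h2.trans h4.symm)

/-- On a set with at least `ℵ n` elements every `n`-cocycle is a coboundary. -/
theorem claim (hρ : Shift x ρ) (n : ℕ) : ∀ J : Set I, ℵ_ n ≤ #J → ∀ f : Finset I → P,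
    Coch P x J n f → (∀ S : Finset I, (S : Set I) ⊆ J → S.card = n + 1 → dd x f S = 0) →
    ∃ g : Finset I → P, (∀ T : Finset I, (T : Set I) ⊆ J → T.card + 1 = n → xx x T • g T = g T) ∧
      ∀ S : Finset I, (S : Set I) ⊆ J → S.card = n → f S = dd x g S := by
  classical
  induction n with
  | zero =>
    intro J hJ f _ hd
    refine ⟨0, fun T _ h => by omega, ?_⟩
    intro S hS hS0
    rw [Finset.card_eq_zero] at hS0
    subst hS0
    have h1 : dd x (0 : Finset I → P) ∅ = 0 := by simp [dd]
    rw [h1]
    have hinf : J.Infinite := by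
      rw [← Set.infinite_coe_iff, ← aleph0_le_mk_iff]
      simpa using hJ
    obtain ⟨j, hjJ, hj⟩ : ∃ j ∈ J, ρ j (f ∅) = f ∅ := by
      by_contra hcon
      push Not at hcon
      exact hinf ((hρ.fin (f ∅)).subset hcon)
    have h2 := hd {j} (by simpa using hjJ) (by simp)
    have h3 : dd x f {j} = x j • f ∅ := by simp [dd]
    rw [h3] at h2
    have h4 := congrArg (ρ j) h2
    rwa [hρ.eq, hj, map_zero] at h4
  | succ n ih =>
    intro J hJ f hf hd
    have hJ1 : ℵ_ n < #J := by
      refine lt_of_lt_of_le ?_ hJ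
      rw [aleph_lt_aleph]
      exact_mod_cast Nat.lt_succ_self n
    have hJ0 : ℵ₀ < #J := lt_of_le_of_lt (aleph0_le_aleph _) hJ1
    -- the enumeration
    obtain ⟨e⟩ : Nonempty ((#J).ord.ToType ≃ J) := by
      rw [← Cardinal.eq, mk_toType, card_ord]
    set W := (#J).ord.ToType with hW
    -- subsets of `J` from subsets of `W`
    set k : Set W → Set I := fun L => (fun w : W => (e w : I)) '' L with hk
    have hkJ : ∀ L, k L ⊆ J := by
      rintro L _ ⟨w, _, rfl⟩
      exact (e w).2
    have hinj : Function.Injective fun w : W => (e w : I) :=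
      Subtype.val_injective.comp e.injective
    have hkcard : ∀ L, #(k L) = #L := fun L => mk_image_eq hinj
    have hkuniv : k Set.univ = J := by
      apply Set.Subset.antisymm (hkJ _)
      intro i hi
      exact ⟨e.symm ⟨i, hi⟩, trivial, by simp⟩
    have hkmono : ∀ {L L' : Set W}, L ⊆ L' → k L ⊆ k L' := fun h => Set.image_mono h
    have hIio : ∀ a : W, #(Set.Iio a) < #J := fun a => mk_Iio_toType_ord_lt a
    have hIic : ∀ a : W, #(Set.Iic a) < #J := by
      intro a
      rw [← Set.Iio_insert]
      refine lt_of_le_of_lt (mk_insert_le) ?_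
      exact add_lt_of_lt hJ0.le (hIio a) (one_lt_aleph0.trans hJ0)
    -- an initial segment of cardinality `ℵ n`
    obtain ⟨a0, ha0⟩ : ∃ a0 : W, ℵ_ n ≤ #(Set.Iio a0) := by
      have h1 : (ℵ_ (n : Ordinal)).ord < (#J).ord := ord_lt_ord.2 hJ1
      let F := Ordinal.principalSegToType h1
      refine ⟨F.top, ?_⟩
      have h2 : Set.Iio F.top = Set.range F := by
        ext b
        exact F.mem_range_iff_rel.symm
      rw [h2, mk_range_eq _ F.injective, mk_ord_toType]
    obtain ⟨g0, hg0, hg0'⟩ := small hρ hJ0 (hkJ (Set.Iio a0)) (by rw [hkcard]; exact hIio a0) f hf hd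
    -- the poset
    let good : Set W → (Finset I → P) → Prop := fun L g => IsLowerSet L ∧ Set.Iio a0 ⊆ L ∧
      Coch P x (k L) n g ∧ ∀ S : Finset I, (S : Set I) ⊆ k L → S.card = n + 1 → f S = dd x g S
    let α := {p : Set W × (Finset I → P) // good p.1 p.2}
    let r : α → α → Prop := fun p q => p.1.1 ⊆ q.1.1 ∧
      ∀ T : Finset I, (T : Set I) ⊆ k p.1.1 → T.card = n → p.1.2 T = q.1.2 T
    have hr : ∀ {a b c : α}, r a b → r b c → r a c := by
      intro a b c hab hbc
      exact ⟨hab.1.trans hbc.1, fun T hT hc =>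
        (hab.2 T hT hc).trans (hbc.2 T (hT.trans (hkmono hab.1)) hc)⟩
    have hrr : ∀ a : α, r a a := fun a => ⟨le_rfl, fun _ _ _ => rfl⟩
    have hchain : ∀ c : Set α, IsChain r c → ∃ ub, ∀ a ∈ c, r a ub := by
      intro c hc
      rcases c.eq_empty_or_nonempty with rfl | hne
      · exact ⟨⟨(Set.Iio a0, g0), isLowerSet_Iio a0, le_rfl, hg0, hg0'⟩, fun a ha => absurd ha (by simp)⟩
      -- the union
      set L : Set W := ⋃ p ∈ c, p.1.1 with hL
      have hkL : k L = ⋃ p ∈ c, k p.1.1 := by
        rw [hk, hL]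
        simp only [Set.image_iUnion]
      have hfin : ∀ S : Finset I, (S : Set I) ⊆ k L → ∃ p ∈ c, (S : Set I) ⊆ k p.1.1 := by
        intro S hS
        rw [hkL] at hS
        refine DirectedOn.exists_mem_subset_of_finset_subset_biUnion hne ?_ hS
        intro p hp q hq
        by_cases hpq : p = q
        · exact ⟨p, hp, le_rfl, by rw [hpq]⟩
        · rcases hc hp hq hpq with h | h
          · exact ⟨q, hq, hkmono h.1, le_rfl⟩
          · exact ⟨p, hp, le_rfl, hkmono h.1⟩
      set g : Finset I → P := fun T => if h : ∃ p ∈ c, (T : Set I) ⊆ k p.1.1 then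
        (Classical.choose h).1.2 T else 0 with hg
      have hgval : ∀ p ∈ c, ∀ T : Finset I, (T : Set I) ⊆ k p.1.1 → T.card = n → g T = p.1.2 T := by
        intro p hp T hT hcard
        have h : ∃ p ∈ c, (T : Set I) ⊆ k p.1.1 := ⟨p, hp, hT⟩
        have h1 : g T = (Classical.choose h).1.2 T := by
          rw [hg]; exact dif_pos h
        rw [h1]
        obtain ⟨hq, hTq⟩ := Classical.choose_spec h
        set q := Classical.choose h
        by_cases hpq : p = q
        · rw [← hpq]
        · rcases hc hp hq hpq with h2 | h2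
          · exact (h2.2 T hT hcard).symm
          · exact h2.2 T hTq hcard
      refine ⟨⟨(L, g), ?_, ?_, ?_, ?_⟩, ?_⟩
      · exact isLowerSet_iUnion₂ fun p _ => p.2.1
      · obtain ⟨p, hp⟩ := hne
        exact p.2.2.1.trans (Set.subset_biUnion_of_mem (u := fun p : α => p.1.1) hp)
      · intro T hT hcard
        obtain ⟨p, hp, hTp⟩ := hfin T hT
        change xx x T • g T = g T
        rw [hgval p hp T hTp hcard]
        exact p.2.2.2.1 T hTp hcard
      · intro S hS hcard
        obtain ⟨p, hp, hSp⟩ := hfin S hS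
        rw [p.2.2.2.2 S hSp hcard]
        apply dd_congr
        intro T hT hc'
        exact (hgval p hp T ((Finset.coe_subset.2 hT).trans hSp) (by omega)).symm
      · intro p hp
        exact ⟨Set.subset_biUnion_of_mem (u := fun p : α => p.1.1) hp,
          fun T hT hcard => (hgval p hp T hT hcard).symm⟩
    obtain ⟨m, hm⟩ := exists_maximal_of_chains_bounded hchain hr
    obtain ⟨⟨L, g⟩, hLlow, hL0, hgc, hgd⟩ := m
    have hLu : L = Set.univ := by
      by_contra hne
      have hne' : Lᶜ.Nonempty := Set.nonempty_compl.2 hne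
      set a := WellFounded.min (wellFounded_lt (α := W)) Lᶜ hne' with ha
      have haL : a ∉ L := WellFounded.min_mem _ _ hne'
      have hLa : L = Set.Iio a := by
        ext b
        rw [Set.mem_Iio]
        constructor
        · intro hb
          by_contra hba
          exact haL (hLlow (not_lt.1 hba) hb)
        · intro hb
          by_contra hbL
          exact WellFounded.not_lt_min _ Lᶜ hbL hb
      obtain ⟨g', hg', hgd'⟩ := small hρ hJ0 (hkJ (Set.Iic a)) (by rw [hkcard]; exact hIic a) f hf hd
      have hsub : k L ⊆ k (Set.Iic a) := hkmono (by rw [hLa]; exact Set.Iio_subset_Iic_self)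
      -- the difference is a cocycle
      obtain ⟨h, hh, hhd⟩ := ih (k L) (by
          rw [hkcard]
          exact ha0.trans (mk_le_mk_of_subset hL0)) (g + g') (by
          intro T hT hcard
          rw [Pi.add_apply, smul_add, hgc T hT hcard, hg' T (hT.trans hsub) hcard]) (by
          intro S hS hcard
          rw [dd_add, ← hgd S hS hcard, ← hgd' S (hS.trans hsub) hcard]
          exact hρ.two _)
      set h' : Finset I → P := fun T => if (T : Set I) ⊆ k L then xx x T • h T else 0 with hh'
      have hh'1 : ∀ T, xx x T • h' T = h' T := by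
        intro T
        rw [hh']
        simp only
        split_ifs
        · rw [← mul_smul, xx_idem hρ.idem]
        · exact smul_zero _
      have hnew : good (Set.Iic a) (g' + dd x h') := by
        refine ⟨isLowerSet_Iic a, ?_, ?_, ?_⟩
        · refine hL0.trans ?_
          change L ⊆ _
          rw [hLa]
          exact Set.Iio_subset_Iic_self
        · intro T hT hcard
          rw [Pi.add_apply, smul_add, hg' T hT hcard]
          congr 1
          unfold dd
          rw [Finset.smul_sum]
          apply Finset.sum_congr rfl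
          intro s hs
          rw [← hh'1 (T.erase s), ← mul_smul (x s), xx_erase T hs, ← mul_smul, xx_idem hρ.idem]
        · intro S hS hcard
          rw [dd_add, dd_dd hρ.two, add_zero]
          exact hgd' S hS hcard
      have := hm ⟨(Set.Iic a, g' + dd x h'), hnew⟩ ⟨by
          change L ⊆ _
          rw [hLa]
          exact Set.Iio_subset_Iic_self, by
          intro T hT hcard
          change g T = g' T + dd x h' T
          have h1 : dd x h' T = dd x h T := by
            unfold dd
            apply Finset.sum_congr rfl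
            intro s hs
            have h2 : ((T.erase s : Finset I) : Set I) ⊆ k L :=
              (Finset.coe_subset.2 (Finset.erase_subset s T)).trans hT
            have h3 : h' (T.erase s) = xx x (T.erase s) • h (T.erase s) := by
              rw [hh']; exact if_pos h2
            rw [h3, hh _ h2]
            rw [Finset.card_erase_of_mem hs, hcard]
            have := Finset.card_pos.2 ⟨s, hs⟩
            omega
          rw [h1, ← hhd T hT hcard, Pi.add_apply]
          have := hρ.two (g' T)
          rw [add_left_comm, this, add_zero]⟩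
      exact haL (this.1 (Set.mem_Iic.2 le_rfl))
    subst hLu
    refine ⟨g, ?_, ?_⟩
    · intro T hT hcard
      rw [← hkuniv] at hT
      exact hgc T hT (by omega)
    · intro S hS hcard
      rw [← hkuniv] at hS
      exact hgd S hS hcard

end coh

/-! ### The complex of projective modules -/

section cpx

variable {I R : Type} [CommRing R] (x : I → R)

open Classical in
/-- the simplicial boundary -/
noncomputable def bd : (Finset I →₀ R) →ₗ[R] (Finset I →₀ R) :=
  Finsupp.linearCombination R fun S => ∑ s ∈ S, Finsupp.single (S.erase s) (1 : R)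

open Classical in
/-- the homotopy -/
noncomputable def hh (i : I) : (Finset I →₀ R) →ₗ[R] (Finset I →₀ R) :=
  Finsupp.linearCombination R fun S => if i ∈ S then 0 else Finsupp.single (insert i S) (x i)

open Classical in
/-- the projection -/
noncomputable def proj (n : ℕ) : (Finset I →₀ R) →ₗ[R] (Finset I →₀ R) :=
  Finsupp.linearCombination R fun S => if S.card = n then Finsupp.single S (xx x S) else 0

/-- `⨁_{|S| = n} x_S R` -/
def PP (n : ℕ) : Submodule R (Finset I →₀ R) where
  carrier := {z | ∀ S, xx x S * z S = z S ∧ (z S ≠ 0 → S.card = n)}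
  zero_mem' := fun S => by simp
  add_mem' := by
    intro a b ha hb S
    refine ⟨by rw [Finsupp.add_apply, mul_add, (ha S).1, (hb S).1], fun h => ?_⟩
    by_contra hn
    apply h
    rw [Finsupp.add_apply, not_not.1 fun h' => hn ((ha S).2 h'),
      not_not.1 fun h' => hn ((hb S).2 h'), add_zero]
  smul_mem' := by
    intro r a ha S
    refine ⟨by rw [Finsupp.smul_apply, smul_eq_mul, mul_left_comm, (ha S).1], fun h => ?_⟩
    apply (ha S).2
    intro h'
    apply h
    rw [Finsupp.smul_apply, h', smul_zero]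

theorem bd_single (S : Finset I) (r : R) : bd (Finsupp.single S r) =
    ∑ s ∈ S, (open Classical in Finsupp.single (S.erase s) r : Finset I →₀ R) := by
  classical
  unfold bd
  rw [Finsupp.linearCombination_single, Finset.smul_sum]
  apply Finset.sum_congr rfl
  intro s _
  rw [Finsupp.smul_single, smul_eq_mul, mul_one]

theorem hh_single_mem {i : I} {S : Finset I} (h : i ∈ S) (r : R) :
    hh x i (Finsupp.single S r) = 0 := by
  unfold hh
  rw [Finsupp.linearCombination_single, if_pos h, smul_zero]

theorem hh_single_not {i : I} {S : Finset I} (h : i ∉ S) (r : R) :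
    hh x i (Finsupp.single S r) = (open Classical in Finsupp.single (insert i S) (x i * r)) := by
  classical
  unfold hh
  rw [Finsupp.linearCombination_single, if_neg h, Finsupp.smul_single, smul_eq_mul, mul_comm]

theorem proj_apply (n : ℕ) (z : Finset I →₀ R) (S : Finset I) :
    proj x n z S = if S.card = n then xx x S * z S else 0 := by
  classical
  induction z using Finsupp.induction_linear with
  | zero => simp
  | add a b ha hb =>
    rw [map_add, Finsupp.add_apply, ha, hb, Finsupp.add_apply]
    split_ifs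
    · ring
    · simp
  | single T r =>
    unfold proj
    rw [Finsupp.linearCombination_single]
    by_cases hT : T.card = n
    · rw [if_pos hT, Finsupp.smul_apply, smul_eq_mul]
      by_cases hTS : T = S
      · subst hTS
        rw [if_pos hT, Finsupp.single_eq_same, Finsupp.single_eq_same, mul_comm]
      · rw [Finsupp.single_apply, if_neg hTS, Finsupp.single_apply, if_neg hTS]
        simp
    · rw [if_neg hT, smul_zero, Finsupp.zero_apply]
      by_cases hTS : T = S
      · subst hTS
        rw [if_neg hT]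
      · rw [Finsupp.single_apply, if_neg hTS]
        simp

theorem single_mem_PP {S : Finset I} {n : ℕ} (hS : S.card = n) {r : R} (hr : xx x S * r = r) :
    Finsupp.single S r ∈ PP x n := by
  classical
  intro T
  by_cases h : S = T
  · subst h
    rw [Finsupp.single_eq_same]
    exact ⟨hr, fun _ => hS⟩
  · rw [Finsupp.single_apply, if_neg h]
    simp

/-- every element of `PP n` is a sum of the obvious ones -/
theorem PP_le {n : ℕ} (hx : ∀ i, x i * x i = x i) (M : Submodule R (Finset I →₀ R))
    (hM : ∀ S : Finset I, S.card = n → Finsupp.single S (xx x S) ∈ M) : PP x n ≤ M := by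
  intro z hz
  rw [← Finsupp.sum_single z]
  apply Submodule.sum_mem
  intro S hS
  rw [Finsupp.mem_support_iff] at hS
  have h1 := hz S
  have : Finsupp.single S (z S) = z S • Finsupp.single S (xx x S) := by
    rw [Finsupp.smul_single, smul_eq_mul, mul_comm, h1.1]
  rw [this]
  exact M.smul_mem _ (hM S (h1.2 hS))

variable {x}

theorem bd_mem {n : ℕ} (hx : ∀ i, x i * x i = x i) {z : Finset I →₀ R} (hz : z ∈ PP x (n + 1)) :
    bd z ∈ PP x n := by
  classical
  have : PP x (n + 1) ≤ (PP x n).comap bd := by
    apply PP_le x hx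
    intro S hS
    rw [Submodule.mem_comap, bd_single]
    apply Submodule.sum_mem
    intro s hs
    apply single_mem_PP
    · rw [Finset.card_erase_of_mem hs, hS]; rfl
    · rw [← xx_erase S hs, mul_left_comm, xx_idem hx]
  exact this hz

theorem hh_mem {n : ℕ} (hx : ∀ i, x i * x i = x i) (i : I) {z : Finset I →₀ R} (hz : z ∈ PP x n) :
    hh x i z ∈ PP x (n + 1) := by
  classical
  have : PP x n ≤ (PP x (n + 1)).comap (hh x i) := by
    apply PP_le x hx
    intro S hS
    rw [Submodule.mem_comap]
    by_cases h : i ∈ S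
    · rw [hh_single_mem x h]; exact Submodule.zero_mem _
    · rw [hh_single_not x h]
      apply single_mem_PP
      · rw [Finset.card_insert_of_notMem h, hS]
      · have : x i * xx x S = xx x (insert i S) := by
          unfold xx; rw [Finset.prod_insert h]
        rw [this, xx_idem hx]
  exact this hz

theorem bd_bd (two : ∀ r : R, r + r = 0) (z : Finset I →₀ R) : bd (bd z) = 0 := by
  classical
  have h : bd ∘ₗ bd = (0 : (Finset I →₀ R) →ₗ[R] (Finset I →₀ R)) := by
    apply Finsupp.lhom_ext
    intro S r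
    rw [LinearMap.comp_apply, bd_single, map_sum, LinearMap.zero_apply]
    have h1 : ∑ s ∈ S, bd (Finsupp.single (S.erase s) r) =
        ∑ p ∈ S.offDiag, (Finsupp.single ((S.erase p.1).erase p.2) r : Finset I →₀ R) := by
      rw [Finset.sum_congr rfl fun s _ => bd_single (S.erase s) r]
      rw [Finset.sum_sigma']
      apply Finset.sum_bij (fun p _ => (p.1, p.2))
      · intro p hp
        rw [Finset.mem_sigma, Finset.mem_erase] at hp
        rw [Finset.mem_offDiag]
        exact ⟨hp.1, hp.2.2, fun h => hp.2.1 h.symm⟩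
      · intro p _ q _ h
        rw [Prod.mk.injEq] at h
        exact Sigma.ext h.1 (heq_of_eq h.2)
      · intro p hp
        rw [Finset.mem_offDiag] at hp
        exact ⟨⟨p.1, p.2⟩, Finset.mem_sigma.2 ⟨hp.1, Finset.mem_erase.2
          ⟨fun h => hp.2.2 h.symm, hp.2.1⟩⟩, rfl⟩
      · intro p _
        congr
    convert h1.trans ?_ using 1
    apply Finset.sum_involution (fun p _ => (p.2, p.1))
    · intro p hp
      simp only
      rw [Finset.erase_right_comm, ← Finsupp.single_add, two, Finsupp.single_zero]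
    · intro p hp _ h
      rw [Finset.mem_offDiag] at hp
      exact hp.2.2 (congrArg Prod.snd h)
    · intro p hp
      rw [Finset.mem_offDiag] at hp ⊢
      exact ⟨hp.2.1, hp.1, fun h => hp.2.2 h.symm⟩
    · intro p hp
      rfl
  exact LinearMap.congr_fun h z

theorem homotopy (two : ∀ r : R, r + r = 0) (i : I) (z : Finset I →₀ R) :
    bd (hh x i z) + hh x i (bd z) = x i • z := by
  classical
  have h : bd ∘ₗ hh x i + hh x i ∘ₗ bd = x i • LinearMap.id := by
    apply Finsupp.lhom_ext
    intro S r
    rw [LinearMap.add_apply, LinearMap.comp_apply, LinearMap.comp_apply, LinearMap.smul_apply,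
      LinearMap.id_apply, Finsupp.smul_single, smul_eq_mul, bd_single, map_sum]
    by_cases hi : i ∈ S
    · rw [hh_single_mem x hi, map_zero, zero_add, Finset.sum_eq_single i]
      · rw [hh_single_not x (Finset.notMem_erase i S)]
        congr 1
        exact Finset.insert_erase hi
      · intro s _ hsi
        apply hh_single_mem
        rw [Finset.mem_erase]
        exact ⟨fun h => hsi h.symm, hi⟩
      · intro h; exact absurd hi h
    · rw [hh_single_not x hi, bd_single, Finset.sum_insert hi, Finset.erase_insert hi, add_assoc,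
        ← Finset.sum_add_distrib, Finset.sum_eq_zero, add_zero]
      intro s hs
      have hsi : i ≠ s := by rintro rfl; exact hi hs
      rw [hh_single_not x (fun h => hi (Finset.mem_of_mem_erase h)),
        Finset.erase_insert_of_ne hsi, ← Finsupp.single_add, two, Finsupp.single_zero]
  have := LinearMap.congr_fun h z
  simpa using this

/-- the boundaries -/
noncomputable def BB (x : I → R) (n : ℕ) : Submodule R (Finset I →₀ R) := (PP x (n + 1)).map bd

theorem BB_le (hx : ∀ i, x i * x i = x i) (n : ℕ) : BB x n ≤ PP x n := by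
  rintro _ ⟨z, hz, rfl⟩
  exact bd_mem hx hz

/-- exactness -/
theorem exact_PP (hx : ∀ i, x i * x i = x i) (two : ∀ r : R, r + r = 0) {n : ℕ}
    {z : Finset I →₀ R} (hz : z ∈ PP x (n + 1)) (h0 : bd z = 0) : z ∈ BB x (n + 1) := by
  classical
  -- the ideal of all `r` with `r z` a boundary
  let 𝔞 : Ideal R := (BB x (n + 1)).comap (LinearMap.toSpanSingleton R _ z)
  have h1 : ∀ i, x i ∈ 𝔞 := by
    intro i
    change x i • z ∈ BB x (n + 1)
    rw [← homotopy two i z, h0, map_zero, add_zero]
    exact ⟨hh x i z, hh_mem hx i hz, rfl⟩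
  have hne : ∀ S ∈ z.support, S.Nonempty := by
    intro S hS
    have := (hz S).2 (Finsupp.mem_support_iff.1 hS)
    exact Finset.card_pos.1 (by omega)
  -- choose an element of each `S`
  let c : Finset I → R := fun S => if h : S.Nonempty then x h.choose else 1
  have hc : ∀ S ∈ z.support, c S ∈ 𝔞 ∧ (1 - c S) * z S = 0 := by
    intro S hS
    have h2 : c S = x (hne S hS).choose := dif_pos (hne S hS)
    have h3 := (hne S hS).choose_spec
    rw [h2]
    refine ⟨h1 _, ?_⟩
    rw [← (hz S).1, ← xx_erase S h3]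
    have := hx (hne S hS).choose
    linear_combination (-xx x (S.erase (hne S hS).choose) * z S) * this
  have h4 : (1 - ∏ S ∈ z.support, (1 - c S)) ∈ 𝔞 := by
    rw [← Ideal.Quotient.eq_zero_iff_mem, map_sub, map_one, map_prod,
      Finset.prod_eq_one, sub_self]
    intro S hS
    rw [map_sub, map_one, Ideal.Quotient.eq_zero_iff_mem.2 (hc S hS).1, sub_zero]
  have h5 : (1 - ∏ S ∈ z.support, (1 - c S)) • z = z := by
    ext S
    rw [Finsupp.smul_apply, smul_eq_mul]
    by_cases hS : S ∈ z.support
    · rw [← Finset.mul_prod_erase _ _ hS]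
      linear_combination (-∏ T ∈ z.support.erase S, (1 - c T)) * (hc S hS).2
    · rw [Finsupp.notMem_support_iff.1 hS, mul_zero]
  rw [← h5]
  exact h4

theorem PP_projective (hx : ∀ i, x i * x i = x i) (n : ℕ) : Module.Projective R (PP x n) := by
  classical
  have hmem : ∀ z, proj x n z ∈ PP x n := by
    intro z S
    rw [proj_apply]
    by_cases h : S.card = n
    · rw [if_pos h]
      refine ⟨?_, fun _ => h⟩
      rw [← mul_assoc, xx_idem hx]
    · rw [if_neg h]; simp
  refine Module.Projective.of_split (PP x n).subtype ((proj x n).codRestrict (PP x n) hmem) ?_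
  ext z S
  simp only [LinearMap.comp_apply, Submodule.subtype_apply, LinearMap.codRestrict_apply,
    LinearMap.id_apply]
  rw [proj_apply]
  by_cases h : S.card = n
  · rw [if_pos h, (z.2 S).1]
  · rw [if_neg h]
    by_contra h'
    exact h ((z.2 S).2 (fun h'' => h' h''.symm))

/-! ### The extension property -/

variable {P : Type} [AddCommGroup P] [Module R P] {ρ : I → P →+ P}

theorem extend (hx : ∀ i, x i * x i = x i) (two : ∀ r : R, r + r = 0) (hρ : Shift x ρ)
    (hI : ∀ n : ℕ, ℵ_ n ≤ #I) (n : ℕ) (φ : BB x n →ₗ[R] P) :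
    ∃ ψ : PP x n →ₗ[R] P, ∀ b : BB x n, ψ ⟨b, BB_le hx n b.2⟩ = φ b := by
  classical
  have hmem : ∀ S : Finset I, S.card = n + 1 → bd (Finsupp.single S (xx x S)) ∈ BB x n :=
    fun S hS => ⟨_, single_mem_PP x hS (xx_idem hx S), rfl⟩
  let f : Finset I → P := fun S => if h : S.card = n + 1 then φ ⟨_, hmem S h⟩ else 0
  have hfv : ∀ S (h : S.card = n + 1), f S = φ ⟨_, hmem S h⟩ := fun S h => dif_pos h
  have hf : Coch P x Set.univ (n + 1) f := by
    intro S _ hS
    rw [hfv S hS, ← map_smul]
    congr 1
    apply Subtype.ext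
    change xx x S • bd (Finsupp.single S (xx x S)) = bd (Finsupp.single S (xx x S))
    rw [← map_smul, Finsupp.smul_single, smul_eq_mul, xx_idem hx]
  have hd : ∀ S : Finset I, (S : Set I) ⊆ Set.univ → S.card = n + 1 + 1 → dd x f S = 0 := by
    intro S _ hS
    have hcard : ∀ s ∈ S, (S.erase s).card = n + 1 := by
      intro s hs
      rw [Finset.card_erase_of_mem hs, hS]; rfl
    have h1 : dd x f S = ∑ s ∈ S.attach, φ (x s • ⟨_, hmem (S.erase s) (hcard s s.2)⟩) := by
      unfold dd
      rw [← Finset.sum_attach]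
      apply Finset.sum_congr rfl
      intro s _
      rw [map_smul]
      congr 1
      convert hfv (S.erase s) (hcard s s.2)
    rw [h1, ← map_sum]
    have h2 : (∑ s ∈ S.attach, x s • (⟨_, hmem (S.erase s) (hcard s s.2)⟩ : BB x n)) = 0 := by
      apply Subtype.ext
      rw [Submodule.coe_sum, Submodule.coe_zero]
      have h3 : ∑ s ∈ S.attach, ((x s • (⟨_, hmem (S.erase s) (hcard s s.2)⟩ : BB x n) : BB x n) :
          Finset I →₀ R) = bd (bd (Finsupp.single S (xx x S))) := by
        rw [bd_single, map_sum, ← Finset.sum_attach S]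
        apply Finset.sum_congr rfl
        intro s _
        change x s • bd (Finsupp.single (S.erase s) (xx x (S.erase s))) = _
        rw [← map_smul, Finsupp.smul_single, smul_eq_mul, xx_erase S s.2]
      rw [h3, bd_bd two]
    rw [h2, map_zero]
  obtain ⟨g, hg, hfg⟩ := claim hρ (n + 1) Set.univ (by rw [mk_univ]; exact_mod_cast hI (n + 1)) f
    hf hd
  refine ⟨(Finsupp.linearCombination R g).comp (PP x n).subtype, ?_⟩
  have key : PP x (n + 1) ≤ LinearMap.eqLocus ((Finsupp.linearCombination R g).comp bd)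
      (φ.comp ((bd.restrict (p := PP x (n + 1)) (q := BB x n) fun z hz => ⟨z, hz, rfl⟩).comp
        ((proj x (n + 1)).codRestrict (PP x (n + 1)) (by
          intro z S
          rw [proj_apply]
          by_cases h : S.card = n + 1
          · rw [if_pos h]
            refine ⟨?_, fun _ => h⟩
            rw [← mul_assoc, xx_idem hx]
          · rw [if_neg h]; simp)))) := by
    apply PP_le x hx
    intro S hS
    rw [LinearMap.mem_eqLocus]
    have h1 : proj x (n + 1) (Finsupp.single S (xx x S)) = Finsupp.single S (xx x S) := by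
      ext T
      rw [proj_apply]
      by_cases hST : S = T
      · subst hST
        rw [if_pos hS, Finsupp.single_eq_same, xx_idem hx]
      · rw [Finsupp.single_apply, if_neg hST, mul_zero, ite_self]
    have h2 : ((bd.restrict (p := PP x (n + 1)) (q := BB x n) fun z hz => ⟨z, hz, rfl⟩).comp
        ((proj x (n + 1)).codRestrict (PP x (n + 1)) (by
          intro z S
          rw [proj_apply]
          by_cases h : S.card = n + 1
          · rw [if_pos h]
            refine ⟨?_, fun _ => h⟩
            rw [← mul_assoc, xx_idem hx]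
          · rw [if_neg h]; simp))) (Finsupp.single S (xx x S)) = ⟨_, hmem S hS⟩ := by
      apply Subtype.ext
      simp only [LinearMap.comp_apply]
      rw [LinearMap.restrict_coe_apply, LinearMap.codRestrict_apply, h1]
    rw [LinearMap.comp_apply, LinearMap.comp_apply, h2, ← hfv S hS, hfg S (Set.subset_univ _) hS,
      bd_single, map_sum]
    unfold dd
    apply Finset.sum_congr rfl
    intro s hs
    rw [Finsupp.linearCombination_single, ← xx_erase S hs, mul_smul]
    congr 1
    have h3 := hg (S.erase s) (Set.subset_univ _) (by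
      rw [Finset.card_erase_of_mem hs, hS]; rfl)
    convert h3
  rintro ⟨_, z, hz, rfl⟩
  have h1 := key hz
  rw [LinearMap.mem_eqLocus] at h1
  change Finsupp.linearCombination R g (bd z) = _
  rw [LinearMap.comp_apply] at h1
  rw [h1]
  rw [LinearMap.comp_apply]
  congr 1
  apply Subtype.ext
  simp only [LinearMap.comp_apply]
  rw [LinearMap.restrict_coe_apply, LinearMap.codRestrict_apply]
  congr 1
  ext T
  rw [proj_apply]
  by_cases h : T.card = n + 1
  · rw [if_pos h, (hz T).1]
  · rw [if_neg h]
    by_contra h'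
    exact h ((hz T).2 (fun h'' => h' h''.symm))

end cpx

/-! ### The module `A` -/

section modA

variable {I R : Type} [CommRing R] {x : I → R}

/-- The ideal generated by the `x i`. -/
abbrev mm (x : I → R) : Ideal R := Ideal.span (Set.range x)

theorem span_smul {r : R} (hr : r ∈ mm x) (a : R ⧸ mm x) : r • a = 0 := by
  obtain ⟨s, rfl⟩ := Submodule.mkQ_surjective _ a
  rw [← map_smul, smul_eq_mul, Submodule.mkQ_apply, Submodule.Quotient.mk_eq_zero]
  exact Ideal.mul_mem_right _ _ hr

theorem one_not_mem (ε : R →+* ZMod 2) (hε : ∀ i, ε (x i) = 0) : (1 : R) ∉ mm x := by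
  intro h
  have h1 : mm x ≤ RingHom.ker ε := by
    rw [Ideal.span_le]
    rintro _ ⟨i, rfl⟩
    exact hε i
  have h2 := h1 h
  rw [RingHom.mem_ker, map_one] at h2
  exact one_ne_zero h2

theorem baer (bool : ∀ r : R, r * r = r) (two : ∀ r : R, r + r = 0)
    (gen : ∀ r : R, r ∈ mm x ∨ 1 + r ∈ mm x) : Module.Baer R (R ⧸ mm x) := by
  intro J f
  by_cases hJ : J ≤ mm x
  · refine ⟨0, fun j hj => ?_⟩
    rw [LinearMap.zero_apply]
    have h1 : (⟨j, hj⟩ : J) = j • ⟨j, hj⟩ := Subtype.ext (bool j).symm
    rw [h1, map_smul, span_smul (hJ hj)]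
  · rw [SetLike.not_le_iff_exists] at hJ
    obtain ⟨e, heJ, he⟩ := hJ
    have he1 := (gen e).resolve_left he
    refine ⟨LinearMap.toSpanSingleton R _ (f ⟨e, heJ⟩), fun j hj => ?_⟩
    rw [LinearMap.toSpanSingleton_apply]
    have h1 : (1 + e) • f ⟨j, hj⟩ = 0 := span_smul he1 _
    have h2 : e • f ⟨j, hj⟩ = f ⟨j, hj⟩ := by
      have h3 : (1 + e) • f ⟨j, hj⟩ = f ⟨j, hj⟩ + e • f ⟨j, hj⟩ := by rw [add_smul, one_smul]
      have h4 : f ⟨j, hj⟩ + f ⟨j, hj⟩ = 0 := by
        rw [← one_smul R (f ⟨j, hj⟩), ← add_smul, two, zero_smul]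
      rw [h1] at h3
      exact add_left_cancel (h3.symm.trans h4.symm)
    rw [← h2, ← map_smul, ← map_smul]
    congr 1
    apply Subtype.ext
    change j * e = e * j
    exact mul_comm _ _

theorem not_projective {ρ : I → R →+ R} (hρ : Shift x ρ)
    (hI : Infinite I) (ε : R →+* ZMod 2) (hε : ∀ i, ε (x i) = 0) :
    ¬ Module.Projective R (R ⧸ mm x) := by
  intro hproj
  obtain ⟨s, hs⟩ := Module.projective_lifting_property (mm x).mkQ
    LinearMap.id (Submodule.mkQ_surjective _)
  set a : R ⧸ mm x := (mm x).mkQ 1 with ha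
  have h1 : ∀ i, x i • s a = 0 := by
    intro i
    rw [← map_smul, span_smul (Ideal.subset_span ⟨i, rfl⟩), map_zero]
  have h2 : s a = 0 := by
    obtain ⟨j, hj⟩ : ∃ j, ρ j (s a) = s a := by
      by_contra hcon
      push Not at hcon
      have := (hρ.fin (s a))
      exact Set.infinite_univ (this.subset fun j _ => hcon j)
    have h4 := hρ.eq j (s a)
    rw [h1, map_zero, hj] at h4
    exact h4.symm
  have h4 := LinearMap.congr_fun hs a
  rw [LinearMap.comp_apply, h2, map_zero, LinearMap.id_apply] at h4
  apply one_not_mem ε hε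
  rw [← Submodule.Quotient.mk_eq_zero]
  exact h4.symm

theorem PP_zero_eq {z : Finset I →₀ R} (hz : z ∈ PP x 0) : z = Finsupp.single ∅ (z ∅) := by
  classical
  ext S
  by_cases h : ∅ = S
  · subst h; rw [Finsupp.single_eq_same]
  · rw [Finsupp.single_apply, if_neg h]
    by_contra hne
    exact h (Finset.card_eq_zero.1 ((hz S).2 hne)).symm

theorem ev_mem (hx : ∀ i, x i * x i = x i) {z : Finset I →₀ R} (hz : z ∈ BB x 0) :
    z ∅ ∈ mm x := by
  classical
  have h : PP x 1 ≤ (Submodule.comap (Finsupp.lapply (∅ : Finset I) : (Finset I →₀ R) →ₗ[R] R) (mm x)).comap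
      bd := by
    apply PP_le x hx
    intro S hS
    obtain ⟨i, rfl⟩ := Finset.card_eq_one.1 hS
    rw [Submodule.mem_comap, Submodule.mem_comap, bd_single]
    simp only [Finset.sum_singleton, Finset.erase_singleton, Finsupp.lapply_apply,
      Finsupp.single_eq_same, xx, Finset.prod_singleton]
    exact Ideal.subset_span ⟨i, rfl⟩
  obtain ⟨y, hy, rfl⟩ := hz
  exact h hy

theorem ev_surj (hx : ∀ i, x i * x i = x i) {r : R} (hr : r ∈ mm x) :
    ∃ z ∈ BB x 0, z ∅ = r := by
  classical
  have h : mm x ≤ (BB x 0).map (Finsupp.lapply (∅ : Finset I) : (Finset I →₀ R) →ₗ[R] R) := by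
    rw [Ideal.span_le]
    rintro _ ⟨i, rfl⟩
    refine ⟨Finsupp.single ∅ (x i), ⟨Finsupp.single {i} (x i),
      single_mem_PP x (by simp) (by simp [xx, hx i]), ?_⟩, by simp⟩
    rw [bd_single]
    simp
  obtain ⟨z, hz, h1⟩ := h hr
  exact ⟨z, hz, h1⟩

end modA

/-! ### Definitions for the statement -/

section stmt

universe u

variable {R : Type u} [Ring R]

/-- The class `⊥𝓟`: `Ext^i(M, P) = 0` for all `i ≥ 1` and all projective `P`. -/
def InPerp (M : ModuleCat.{u} R) : Prop :=
  ∀ (i : ℕ), 1 ≤ i → ∀ P : ModuleCat.{u} R, Module.Projective R P →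
    Subsingleton (Abelian.Ext M P i)

/-- There is an exact sequence `0 → T_n → ⋯ → T_1 → T_0 → A → 0` with all `T_i` in `⊥𝓟`
(here `T_i = 0` for `i > n`). -/
def PerpDimLE (A : ModuleCat.{u} R) (n : ℕ) : Prop :=
  ∃ (T : ℕ → ModuleCat.{u} R) (d : ∀ i, T (i + 1) →ₗ[R] T i) (ε : T 0 →ₗ[R] A),
    Function.Surjective ε ∧ LinearMap.range (d 0) = LinearMap.ker ε ∧
    (∀ i, LinearMap.range (d (i + 1)) = LinearMap.ker (d i)) ∧
    (∀ i, n < i → Subsingleton (T i)) ∧ ∀ i, InPerp (T i)

/-- The `⊥𝓟`-dimension. -/
noncomputable def perpDim (A : ModuleCat.{u} R) : ℕ∞ :=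
  sInf {m : ℕ∞ | ∃ n : ℕ, m = n ∧ PerpDimLE A n}

end stmt

/-! ### Ext groups -/

section ext

variable {R : Type} [Ring R]

open Abelian

theorem ext_one {S : ShortComplex (ModuleCat.{0} R)} (hS : S.ShortExact) [Projective S.X₂]
    (Y : ModuleCat.{0} R) (h : ∀ φ : S.X₁ ⟶ Y, ∃ ψ : S.X₂ ⟶ Y, S.f ≫ ψ = φ) :
    Subsingleton (Ext S.X₃ Y 1) := by
  have key : ∀ e : Ext S.X₃ Y 1, e = 0 := by
    intro e
    obtain ⟨x₁, hx₁⟩ := Ext.contravariant_sequence_exact₃ hS Y e (Ext.eq_zero_of_projective _)
      (add_comm 1 0)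
    obtain ⟨φ, rfl⟩ := Ext.homEquiv₀.symm.surjective x₁
    obtain ⟨ψ, rfl⟩ := h φ
    rw [← hx₁, Ext.homEquiv₀_symm_apply, ← Ext.mk₀_comp_mk₀,
      ← Ext.comp_assoc_of_second_deg_zero, ShortComplex.ShortExact.extClass_comp, Ext.zero_comp]
  exact ⟨fun a b => (key a).trans (key b).symm⟩

theorem ext_succ {S : ShortComplex (ModuleCat.{0} R)} (hS : S.ShortExact) [Projective S.X₂]
    (Y : ModuleCat.{0} R) (n : ℕ) (h : Subsingleton (Ext S.X₁ Y n)) :
    Subsingleton (Ext S.X₃ Y (n + 1)) := by
  have key : ∀ e : Ext S.X₃ Y (n + 1), e = 0 := by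
    intro e
    obtain ⟨x₁, hx₁⟩ := Ext.contravariant_sequence_exact₃ hS Y e (Ext.eq_zero_of_projective _)
      (add_comm 1 n)
    rw [← hx₁, Subsingleton.elim x₁ 0, Ext.comp_zero]
  exact ⟨fun a b => (key a).trans (key b).symm⟩

/-- a module of finite projective dimension in `⊥𝓟` is projective -/
theorem projective_of_perp {M : ModuleCat.{0} R} (hM : InPerp M) (n : ℕ)
    (h : HasProjectiveDimensionLT M (n + 1)) : Projective M := by
  induction n with
  | zero => exact projective_iff_hasProjectiveDimensionLT_one.2 h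
  | succ n ih =>
    apply ih
    rw [hasProjectiveDimensionLT_iff.{0}]
    intro i hi Y e
    rcases Nat.lt_or_ge (n + 1) i with hi' | hi'
    · exact e.eq_zero_of_hasProjectiveDimensionLT (n + 1 + 1) hi'
    · have hin : i = n + 1 := le_antisymm hi' hi
      subst hin
      have hS := Y.shortExact_projectiveShortComplex
      obtain ⟨x₂, hx₂⟩ := Ext.covariant_sequence_exact₃ M hS e rfl
        (Ext.eq_zero_of_hasProjectiveDimensionLT _ (n + 1 + 1) le_rfl)
      have : Subsingleton (Ext M Y.projectiveShortComplex.X₂ (n + 1)) :=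
        hM (n + 1) (by omega) _ inferInstance
      rw [← hx₂, Subsingleton.elim x₂ 0, Ext.zero_comp]

end ext

/-! ### The free Boolean ring -/

section free

open MvPolynomial

/-- The relations `X_i^2 - X_i`. -/
noncomputable abbrev relI (I : Type) : Ideal (MvPolynomial I (ZMod 2)) :=
  Ideal.span (Set.range fun i : I => (X i ^ 2 - X i : MvPolynomial I (ZMod 2)))

/-- The free Boolean ring on `I`. -/
abbrev FB (I : Type) := MvPolynomial I (ZMod 2) ⧸ relI I

variable {I : Type}

/-- The generators. -/
noncomputable def xr (i : I) : FB I := Ideal.Quotient.mk _ (X i)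

theorem FB_induction {p : FB I → Prop} (h0 : p 0) (h1 : p 1)
    (hadd : ∀ a b, p a → p b → p (a + b)) (hmul : ∀ a i, p a → p (a * xr i)) (a : FB I) : p a := by
  obtain ⟨f, rfl⟩ := Ideal.Quotient.mk_surjective a
  induction f using MvPolynomial.induction_on with
  | C a =>
    have : ∀ a : ZMod 2, a = 0 ∨ a = 1 := by decide
    rcases this a with rfl | rfl
    · rw [C_0, map_zero]; exact h0
    · rw [C_1, map_one]; exact h1
  | add f g hf hg => rw [map_add]; exact hadd _ _ hf hg
  | mul_X f i hf => rw [map_mul]; exact hmul _ _ hf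

theorem xr_idem (i : I) : xr i * xr i = xr i := by
  unfold xr
  rw [← map_mul, Ideal.Quotient.eq]
  apply Ideal.subset_span
  exact ⟨i, by ring⟩

theorem FB_two (r : FB I) : r + r = 0 := by
  have h : (2 : FB I) = 0 := by
    have h0 : ((1 : ZMod 2)) + 1 = 0 := by decide
    have h1 := congrArg (fun a => Ideal.Quotient.mk (relI I) (C a)) h0
    simp only [map_add, map_one, map_zero] at h1
    rw [← h1]
    norm_num
  linear_combination r * h

theorem FB_bool (r : FB I) : r * r = r := by
  induction r using FB_induction with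
  | h0 => ring
  | h1 => ring
  | hadd a b ha hb =>
    have := FB_two (a * b)
    linear_combination ha + hb + this
  | hmul a i ha =>
    linear_combination xr i * xr i * ha + a * xr_idem i

open Classical in
/-- The substitution `x_j ↦ 1`. -/
noncomputable def rho (j : I) : FB I →+* FB I :=
  Ideal.Quotient.lift (relI I)
    (aeval (R := ZMod 2) fun i => if i = j then (1 : FB I) else xr i).toRingHom (by
      intro a ha
      have : relI I ≤ RingHom.ker
          (aeval (R := ZMod 2) fun i => if i = j then (1 : FB I) else xr i).toRingHom := by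
        rw [Ideal.span_le]
        rintro _ ⟨i, rfl⟩
        rw [SetLike.mem_coe, RingHom.mem_ker]
        simp only [AlgHom.toRingHom_eq_coe, RingHom.coe_coe, map_sub, map_pow, aeval_X]
        split_ifs
        · ring
        · linear_combination xr_idem i
      exact this ha)

theorem rho_self (j : I) : rho j (xr j) = 1 := by
  unfold rho xr
  rw [Ideal.Quotient.lift_mk]
  simp

theorem rho_ne {i j : I} (h : i ≠ j) : rho j (xr i) = xr i := by
  unfold rho xr
  rw [Ideal.Quotient.lift_mk]
  simp [h, xr]

theorem rho_fin (r : FB I) : {j | rho j r ≠ r}.Finite := by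
  induction r using FB_induction with
  | h0 => simp
  | h1 => simp
  | hadd a b ha hb =>
    refine (ha.union hb).subset fun j hj => ?_
    by_contra hn
    rw [Set.mem_union, not_or] at hn
    apply hj
    rw [map_add, not_not.1 hn.1, not_not.1 hn.2]
  | hmul a i ha =>
    refine (ha.union (Set.finite_singleton i)).subset fun j hj => ?_
    by_contra hn
    rw [Set.mem_union, not_or] at hn
    apply hj
    rw [map_mul, not_not.1 hn.1, rho_ne (fun h => hn.2 h.symm)]

/-- The augmentation. -/
noncomputable def eps : FB I →+* ZMod 2 :=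
  Ideal.Quotient.lift (relI I) (aeval (R := ZMod 2) fun _ => (0 : ZMod 2)).toRingHom (by
      intro a ha
      have : relI I ≤ RingHom.ker (aeval (R := ZMod 2) fun _ : I => (0 : ZMod 2)).toRingHom := by
        rw [Ideal.span_le]
        rintro _ ⟨i, rfl⟩
        rw [SetLike.mem_coe, RingHom.mem_ker]
        simp
      exact this ha)

theorem eps_xr (i : I) : eps (xr i) = 0 := by
  unfold eps xr
  rw [Ideal.Quotient.lift_mk]
  simp

theorem FB_gen (r : FB I) : r ∈ mm (xr (I := I)) ∨ 1 + r ∈ mm (xr (I := I)) := by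
  have h2 : (2 : FB I) = 0 := by
    have := FB_two (1 : FB I)
    linear_combination this
  induction r using FB_induction with
  | h0 => left; exact Ideal.zero_mem _
  | h1 => right; rw [FB_two]; exact Ideal.zero_mem _
  | hadd a b ha hb =>
    rcases ha with ha | ha <;> rcases hb with hb | hb
    · left; exact Ideal.add_mem _ ha hb
    · right
      have := Ideal.add_mem _ ha hb
      rwa [show a + (1 + b) = 1 + (a + b) by ring] at this
    · right
      have := Ideal.add_mem _ ha hb
      rwa [show 1 + a + b = 1 + (a + b) by ring] at this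
    · left
      have := Ideal.add_mem _ ha hb
      rwa [show 1 + a + (1 + b) = a + b by linear_combination h2] at this
  | hmul a i ha =>
    left
    exact Ideal.mul_mem_left _ _ (Ideal.subset_span ⟨i, rfl⟩)

/-- The operators on a free module. -/
noncomputable def rhoF (N : Type) (j : I) : (N →₀ FB I) →+ (N →₀ FB I) :=
  Finsupp.mapRange.addMonoidHom (rho j).toAddMonoidHom

theorem rhoF_apply (N : Type) (j : I) (p : N →₀ FB I) (a : N) : rhoF N j p a = rho j (p a) := rfl

theorem shiftF (N : Type) : Shift (P := N →₀ FB I) (xr (I := I)) (rhoF N) where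
  idem := xr_idem
  two p := by
    ext a
    rw [Finsupp.add_apply, FB_two, Finsupp.zero_apply]
  ne i j p h := by
    ext a
    rw [rhoF_apply, Finsupp.smul_apply, Finsupp.smul_apply, rhoF_apply, smul_eq_mul, smul_eq_mul,
      map_mul, rho_ne h]
  eq j p := by
    ext a
    rw [rhoF_apply, rhoF_apply, Finsupp.smul_apply, smul_eq_mul, map_mul, rho_self, one_mul]
  fin p := by
    refine (Set.Finite.biUnion (Finset.finite_toSet p.support) fun a _ =>
      rho_fin (p a)).subset fun j hj => ?_
    by_contra hn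
    apply hj
    ext a
    rw [rhoF_apply]
    by_cases ha : a ∈ p.support
    · by_contra h
      exact hn (Set.mem_biUnion (Finset.mem_coe.2 ha) h)
    · rw [Finsupp.notMem_support_iff.1 ha, map_zero]

theorem shiftR : Shift (P := FB I) (xr (I := I)) (fun j => (rho j).toAddMonoidHom) where
  idem := xr_idem
  two p := FB_two p
  ne i j p h := by
    change rho j (xr i * p) = xr i * rho j p
    rw [map_mul, rho_ne h]
  eq j p := by
    change rho j (xr j * p) = rho j p
    rw [map_mul, rho_self, one_mul]
  fin p := rho_fin p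

theorem extend_proj (hI : ∀ n : ℕ, ℵ_ n ≤ #I) {N : Type} [AddCommGroup N] [Module (FB I) N]
    (hN : Module.Projective (FB I) N) (n : ℕ) (φ : BB (xr (I := I)) n →ₗ[FB I] N) :
    ∃ ψ : PP (xr (I := I)) n →ₗ[FB I] N, ∀ b : BB (xr (I := I)) n,
      ψ ⟨b, BB_le xr_idem n b.2⟩ = φ b := by
  obtain ⟨s, hs⟩ := Module.projective_def'.1 hN
  obtain ⟨ψ, hψ⟩ := extend xr_idem FB_two (shiftF N) hI n (s.comp φ)
  refine ⟨(Finsupp.linearCombination (FB I) id).comp ψ, fun b => ?_⟩
  rw [LinearMap.comp_apply, hψ, LinearMap.comp_apply]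
  exact LinearMap.congr_fun hs (φ b)

end free

section final

open Abelian

theorem seq_ext {R A B C : Type} [CommRing R] [AddCommGroup A] [AddCommGroup B] [AddCommGroup C]
    [Module R A] [Module R B] [Module R C] (f : A →ₗ[R] B) (g : B →ₗ[R] C)
    (hf : Function.Injective f) (hg : Function.Surjective g) (hfg : Function.Exact f g)
    (hB : Module.Projective R B) (N : ModuleCat.{0} R) :
    ((∀ φ : A →ₗ[R] N, ∃ ψ : B →ₗ[R] N, ψ.comp f = φ) →
      Subsingleton (Ext (ModuleCat.of R C) N 1)) ∧
    ∀ k, Subsingleton (Ext (ModuleCat.of R A) N k) →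
      Subsingleton (Ext (ModuleCat.of R C) N (k + 1)) := by
  have hS := ModuleCat.shortComplex_shortExact
    (ModuleCat.shortComplexOfCompEqZero f g hfg.linearMap_comp_eq_zero) hfg hf hg
  have hP : Projective (ModuleCat.shortComplexOfCompEqZero f g hfg.linearMap_comp_eq_zero).X₂ :=
    (IsProjective.iff_projective B).1 hB
  refine ⟨fun h => ?_, fun k hk => ext_succ hS N k hk⟩
  apply ext_one hS N
  intro φ
  obtain ⟨ψ, hψ⟩ := h φ.hom
  exact ⟨ModuleCat.ofHom ψ, by ext a; exact LinearMap.congr_fun hψ a⟩

variable {I R : Type} [CommRing R] {x : I → R}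

theorem extB (hx : ∀ i, x i * x i = x i) (two : ∀ r : R, r + r = 0) (N : ModuleCat.{0} R)
    (hext : ∀ (n : ℕ) (φ : BB x n →ₗ[R] N), ∃ ψ : PP x n →ₗ[R] N, ∀ b : BB x n,
      ψ ⟨b, BB_le hx n b.2⟩ = φ b) (k : ℕ) :
    ∀ n, Subsingleton (Ext (ModuleCat.of R (BB x n)) N (k + 1)) := by
  have key : ∀ n, ((∀ φ : BB x (n + 1) →ₗ[R] N, ∃ ψ : PP x (n + 1) →ₗ[R] N,
      ψ.comp (Submodule.inclusion (BB_le hx (n + 1))) = φ) →
      Subsingleton (Ext (ModuleCat.of R (BB x n)) N 1)) ∧
      ∀ k, Subsingleton (Ext (ModuleCat.of R (BB x (n + 1))) N k) →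
        Subsingleton (Ext (ModuleCat.of R (BB x n)) N (k + 1)) := by
    intro n
    refine seq_ext (A := BB x (n + 1)) (B := PP x (n + 1)) (C := BB x n)
      (Submodule.inclusion (BB_le hx (n + 1)))
      (bd.restrict (p := PP x (n + 1)) (q := BB x n) fun z hz => ⟨z, hz, rfl⟩)
      (Submodule.inclusion_injective _) ?_ ?_ (PP_projective hx (n + 1)) N
    · rintro ⟨_, y, hy, rfl⟩
      exact ⟨⟨y, hy⟩, rfl⟩
    · intro z
      constructor
      · intro hz
        have h1 : bd (z : Finset I →₀ R) = 0 := congrArg Subtype.val hz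
        exact ⟨⟨z, exact_PP hx two z.2 h1⟩, rfl⟩
      · rintro ⟨⟨_, y, hy, rfl⟩, rfl⟩
        apply Subtype.ext
        exact bd_bd two y
  induction k with
  | zero =>
    intro n
    apply (key n).1
    intro φ
    obtain ⟨ψ, hψ⟩ := hext (n + 1) φ
    exact ⟨ψ, LinearMap.ext hψ⟩
  | succ k ih =>
    intro n
    exact (key n).2 (k + 1) (ih (n + 1))

theorem extA (hx : ∀ i, x i * x i = x i) (two : ∀ r : R, r + r = 0) (N : ModuleCat.{0} R)
    (hext : ∀ (n : ℕ) (φ : BB x n →ₗ[R] N), ∃ ψ : PP x n →ₗ[R] N, ∀ b : BB x n,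
      ψ ⟨b, BB_le hx n b.2⟩ = φ b) (k : ℕ) :
    Subsingleton (Ext (ModuleCat.of R (R ⧸ mm x)) N (k + 1)) := by
  have key : ((∀ φ : BB x 0 →ₗ[R] N, ∃ ψ : R →ₗ[R] N,
      ψ.comp ((Finsupp.lapply (∅ : Finset I) : (Finset I →₀ R) →ₗ[R] R).comp (BB x 0).subtype) =
        φ) → Subsingleton (Ext (ModuleCat.of R (R ⧸ mm x)) N 1)) ∧
      ∀ k, Subsingleton (Ext (ModuleCat.of R (BB x 0)) N k) →
        Subsingleton (Ext (ModuleCat.of R (R ⧸ mm x)) N (k + 1)) := by
    refine seq_ext (A := BB x 0) (B := R) (C := R ⧸ mm x)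
      ((Finsupp.lapply (∅ : Finset I) : (Finset I →₀ R) →ₗ[R] R).comp (BB x 0).subtype)
      (mm x).mkQ ?_ (Submodule.mkQ_surjective _) ?_ inferInstance N
    · intro a b hab
      apply Subtype.ext
      rw [PP_zero_eq (BB_le hx 0 a.2), PP_zero_eq (BB_le hx 0 b.2)]
      congr 1
    · intro r
      constructor
      · intro hr
        rw [Submodule.mkQ_apply, Submodule.Quotient.mk_eq_zero] at hr
        obtain ⟨z, hz, h1⟩ := ev_surj hx hr
        exact ⟨⟨z, hz⟩, h1⟩
      · rintro ⟨⟨z, hz⟩, rfl⟩
        rw [Submodule.mkQ_apply, Submodule.Quotient.mk_eq_zero]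
        exact ev_mem hx hz
  rcases k with _ | k
  · apply key.1
    intro φ
    obtain ⟨ψ, hψ⟩ := hext 0 φ
    refine ⟨ψ.comp ((Finsupp.lsingle (∅ : Finset I) : R →ₗ[R] (Finset I →₀ R)).codRestrict
      (PP x 0) fun r => single_mem_PP x rfl (by simp [xx])), ?_⟩
    ext b
    rw [← hψ b]
    simp only [LinearMap.comp_apply]
    congr 1
    apply Subtype.ext
    exact (PP_zero_eq (BB_le hx 0 b.2)).symm
  · exact key.2 (k + 1) (extB hx two N hext k 0)

/-- the abstract version of the main theorem -/
theorem main (hx : ∀ i, x i * x i = x i) (bool : ∀ r : R, r * r = r) (two : ∀ r : R, r + r = 0)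
    (gen : ∀ r : R, r ∈ mm x ∨ 1 + r ∈ mm x)
    (hext : ∀ (N : Type) (_ : AddCommGroup N) (_ : Module R N), Module.Projective R N →
      ∀ (n : ℕ) (φ : BB x n →ₗ[R] N), ∃ ψ : PP x n →ₗ[R] N, ∀ b : BB x n,
      ψ ⟨b, BB_le hx n b.2⟩ = φ b)
    (hnp : ¬ Module.Projective R (R ⧸ mm x)) (h1 : (1 : R) ∉ mm x) :
    Nontrivial (ModuleCat.of R (R ⧸ mm x)) ∧
    injectiveDimension (ModuleCat.of R (R ⧸ mm x)) = 0 ∧
      perpDim (ModuleCat.of R (R ⧸ mm x)) = 0 ∧
      projectiveDimension (ModuleCat.of R (R ⧸ mm x)) = ⊤ := by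
  have hperp : InPerp (ModuleCat.of R (R ⧸ mm x)) := by
    intro i hi P hP
    obtain ⟨k, rfl⟩ : ∃ k, i = k + 1 := ⟨i - 1, by omega⟩
    exact extA hx two P (hext P _ _ hP) k
  have hnt : Nontrivial (ModuleCat.of R (R ⧸ mm x)) := by
    refine ⟨⟨(mm x).mkQ 1, 0, fun h => h1 ?_⟩⟩
    rwa [Submodule.mkQ_apply, Submodule.Quotient.mk_eq_zero] at h
  have hnz : ¬ Limits.IsZero (ModuleCat.of R (R ⧸ mm x)) := by
    rw [ModuleCat.isZero_iff_subsingleton]
    exact not_subsingleton _
  refine ⟨hnt, ?_, ?_, ?_⟩
  · have h1 := (baer bool two gen).injective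
    have h2 : Injective (ModuleCat.of R (R ⧸ mm x)) :=
      Module.injective_object_of_injective_module R (R ⧸ mm x)
    apply le_antisymm
    · exact_mod_cast (injectiveDimension_le_iff _ 0).2 (inferInstance : HasInjectiveDimensionLT _ 1)
    · have h3 := (injectiveDimension_ge_iff (ModuleCat.of R (R ⧸ mm x)) 0).2
        (fun h => hnz ((hasInjectiveDimensionLT_zero_iff_isZero _).1 h))
      exact_mod_cast h3
  · apply le_antisymm _ bot_le
    apply sInf_le
    refine ⟨0, rfl, fun i => Nat.rec (ModuleCat.of R (R ⧸ mm x)) (fun _ _ => ModuleCat.of R PUnit) i,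
      fun i => 0, LinearMap.id, fun a => ⟨a, rfl⟩, ?_, ?_, ?_, ?_⟩
    · rw [LinearMap.range_zero]
      exact (LinearMap.ker_id).symm
    · intro i
      have : Subsingleton (Submodule R (ModuleCat.of R PUnit.{1})) :=
        (inferInstance : Subsingleton (Submodule R PUnit.{1}))
      exact Subsingleton.elim (α := Submodule R (ModuleCat.of R PUnit.{1})) _ _
    · intro i hi
      obtain ⟨k, rfl⟩ : ∃ k, i = k + 1 := ⟨i - 1, by omega⟩
      exact (inferInstance : Subsingleton PUnit.{1})
    · intro i
      rcases i with _ | k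
      · exact hperp
      · intro j hj P hP
        have hz : Limits.IsZero (ModuleCat.of R PUnit.{1}) := by
          rw [ModuleCat.isZero_iff_subsingleton]
          exact (inferInstance : Subsingleton PUnit.{1})
        have := hz.hasProjectiveDimensionLT_zero
        exact HasProjectiveDimensionLT.subsingleton _ 0 j (Nat.zero_le _) P
  · by_contra hne
    rw [← ne_eq, projectiveDimension_ne_top_iff] at hne
    obtain ⟨n, hn⟩ := hne
    apply hnp
    have := projective_of_perp hperp n hn
    exact (IsProjective.iff_projective _).2 this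

end final

/-- **Main theorem.** There are a commutative ring `R` and a nonzero injective `R`-module `A` (so
`id A = 0`) with `⊥𝓟-dim A = 0` and `pd A = ∞`. In particular `id A < ∞` but
`pd A ≠ ⊥𝓟-dim A`. -/
theorem result : ∃ (R : Type) (_ : CommRing R) (A : ModuleCat.{0} R),
    Nontrivial A ∧ injectiveDimension A = 0 ∧ perpDim A = 0 ∧ projectiveDimension A = ⊤ ∧
    injectiveDimension A < ⊤ ∧ projectiveDimension A ≠ (perpDim A : WithBot ℕ∞) := by
  obtain ⟨I, hI⟩ : ∃ I : Type, #I = ℵ_ Ordinal.omega0 := ⟨_, mk_out _⟩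
  have hIn : ∀ n : ℕ, ℵ_ n ≤ #I := by
    intro n
    rw [hI]
    exact aleph_le_aleph.2 (Ordinal.natCast_lt_omega0 n).le
  have hinf : Infinite I := by
    rw [infinite_iff]
    exact (aleph0_le_aleph _).trans (hIn 0)
  have h := main (x := xr (I := I)) xr_idem FB_bool FB_two FB_gen
    (fun N _ _ hN n φ => extend_proj hIn hN n φ)
    (not_projective shiftR hinf eps eps_xr) (one_not_mem eps eps_xr)
  refine ⟨FB I, inferInstance, _, h.1, h.2.1, h.2.2.1, h.2.2.2, ?_, ?_⟩
  · rw [h.2.1]
    exact WithBot.coe_lt_coe.2 (ENat.coe_lt_top 0)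
  · rw [h.2.2.1, h.2.2.2]
    intro h0
    exact absurd (WithBot.coe_injective h0) (by simp)

end Pool.Agent.Results.MP_3e7e0d_al.BooleanExample
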